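import Pool.Agent.K9h42.HK.Ex5

/-!
# MP_146573_gt: hyperkähler Kirwan surjectivity fails, even if `‖μ_HK‖²` is proper

The example is the flat hyperkähler manifold `X = ℍ⁴` with the complex structures given by right
multiplications. The compact connected group `G ≅ Sp(1) × SO(2)` acts on `(x₀, x₁, x₂, x₃)`:
`Sp(1)` by left multiplication, `SO(2)` by rotation of the pair `(x₀, x₁)`. The moment map of
`Sp(1)` vanishes exactly when the real `4 × 4` matrix `A = (x₀, x₁, x₂, x₃)` satisfies
`A Aᵀ = c 1`, and the moment map of `SO(2)` is the imaginary part of `x̄₀ x₁`, up to sign and up to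
an additive constant, which is chosen to be different from `0`. The zero level set
consists of two free `G`-orbits, on which `det A` has different signs. So
`H⁰_G(X) = ℚ → H⁰_G(μ⁻¹(0)) = ℚ²` is not onto. The quadratic part of the moment map vanishes only
at the origin; hence `‖μ_HK‖²` is proper and all forward trajectories of its negative gradient flow
are relatively compact.
-/

set_option autoImplicit false

open Set Filter Topology
open scoped Gradient

namespace Pool.Agent.Results.MP_146573_gt.KirwanFailsProper

open Pool.Agent.K9h42.HK

/-- There are a hyperkähler manifold `V` (a flat one: a real inner product space of finite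
dimension with a quaternionic structure `H`), a compact connected group `G` acting on it
continuously, faithfully and linearly and preserving the metric and the complex structures, and a
`G`-equivariant hyperkähler moment map `μ` with the following properties. For every inner product on
the Lie algebra of `G`, with an orthonormal basis `e`: the norm-square `‖μ‖²` has compact sublevel
sets, and the forward trajectories of its negative gradient flow exist for all times and are
relatively compact. The group acts freely on the non-empty zero level of `μ`. The Kirwan map
`H^k_G(V; ℚ) → H^k_G(μ⁻¹(0); ℚ)` is not surjective in degree `k = 0`. -/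
theorem result :
    ∃ (V : Type) (_ : NormedAddCommGroup V) (_ : InnerProductSpace ℝ V)
      (_ : FiniteDimensional ℝ V) (_ : CompleteSpace V) (H : HyperStr V)
      (G : Type) (_ : Group G) (_ : TopologicalSpace G) (_ : IsTopologicalGroup G)
      (_ : T2Space G) (_ : CompactSpace G) (_ : ConnectedSpace G) (_ : MulAction G V)
      (_ : ContinuousSMul G V) (μ : Fin 3 → V → (V → V) → ℝ),
      Preserves H G ∧ IsMomentMap H G μ ∧
      (∃ (n : ℕ) (e : Fin n → V → V), IsLieBasis G e) ∧
      (∀ (n : ℕ) (e : Fin n → V → V), IsLieBasis G e →
        CompactSublevels (normSq μ e) ∧ CompactTrajectories (normSq μ e)) ∧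
      FreeZeroLevel G μ ∧ KirwanFails G (zeroLevel G μ) 0 := by
  refine ⟨H4, inferInstance, inferInstance, inferInstance, inferInstance, HS, SG, inferInstance,
    inferInstance, inferInstance, inferInstance, inferInstance, inferInstance, inferInstance,
    inferInstance, mu, preserves, isMomentMap, ⟨4, eB, eB_basis⟩, ?_,
    ⟨⟨pt 1, pt_level 1 (by norm_num)⟩, fun x hx g h => level_free hx h⟩, ?_⟩
  · intro n e he
    refine ⟨normSq_proper he, fun x => ⟨exists_forward (normSq_contDiff he) (normSq_proper he) x,
      {y | normSq mu e y ≤ normSq mu e x}, normSq_proper he _, ?_⟩⟩
    intro T γ h0 hγ t ht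
    have h1 := decreasing ((normSq_contDiff he).differentiable (by norm_num)) hγ t ht
    rw [h0] at h1
    exact h1
  · intro E _ _ _ _
    exact not_surjective_zero SG (zeroLevel SG mu) NN NN_continuous (fun g p => NN_invariant g p)
      (fun s hs => level_det hs) (pt (-1)) (pt 1) (pt_level _ (by norm_num))
      (pt_level _ (by norm_num)) (by rw [NN_pt]; norm_num) (by rw [NN_pt]; norm_num) E

end Pool.Agent.Results.MP_146573_gt.KirwanFailsProper
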